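import Pool.Agent.D0H56.FJ.FCr

/-!
# Groups acting on trees with commensurable stabilizers, with torsion

`C` is any class of groups with the closure properties `ClosedE C` which contains the metabelian
groups. This is known for the class of the groups that satisfy the Farrell–Jones conjecture for
`A`-theory with coefficients and finite wreath products, and this class contains the groups `GL_m(ℚ)`
(Kasprowski, Ullmann, Wegner and Winges).

Let `G` act on a tree, possibly with inversions and with infinitely many orbits, and let `N` be a normal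
subgroup of `G` such that `G ⧸ N` is in `C` (for instance `N = G`); `N_v` is the stabilizer of `v` in `N`.

(1) Suppose that `N_v` and `N_w` are commensurable for adjacent `v` and `w`, and that for one vertex `o`
one of the following conditions holds:

* `N_o` is virtually polycyclic (it has a torsion-free polycyclic subgroup of finite index), and `C`
  contains all `GL_m(ℚ)`;
* only finitely many elements of finite order of `N_o` have finitely many conjugates in `N_o`, and the
  abstract commensurator of `N_o` is in `C`, or `G` has a homomorphism to a group in `C` the kernel of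
  which consists of elements that centralize subgroups of finite index of `N_o`.

Then `G` is in `C`. So every group that acts on a tree with virtually polycyclic stabilizers which are
pairwise commensurable satisfies the Farrell–Jones conjecture for `A`-theory. If `N_o` has no nontrivial
finite normal subgroups this follows from the earlier files (`N77.CP`), where the action of the kernel on
the tree has torsion-free abelian stabilizers; here they are arbitrary FC-groups with finite torsion.

(2) More generally let `E` be a subgroup of `G` which is commensurated by `G` and which satisfies: the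
abstract commensurator of `E` is in `C`, or `E` is virtually polycyclic and `C` contains all `GL_m(ℚ)`.
For every vertex let `S_v` be the group of the elements of `N_v` which centralize a subgroup of finite
index of `E`, and let `D_v` be the kernel of the map from `S_v` to its rational first homology, i.e. the
group of the elements of `S_v` with a power in `[S_v, S_v]`. Suppose that for every edge `(v, w)` there is
a subgroup of finite index of `D_v` which is normalized by `G_v` and intersects `G_w` trivially (for
instance: `G_v` is residually finite and `D_v ∩ G_w` is finite), and that the extensions of `D_v` by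
elements of `G_v` are in `C`. Then `G` is in `C`. Typically `E` is the stabilizer of an edge, the edge
groups are commensurable, and the vertex groups are larger groups in `C`.

Outline of the proof. The representations of `G` on the rational hulls of the derived series of a
commensurated polycyclic group, or the germs of conjugations, give a homomorphism to a group in `C` the
kernel of which centralizes subgroups of finite index of `E` (`N77.CP`, `N24.CM`). Let `L` be the
intersection of `N` with this kernel. The groups `L_v` have the filtration by `D'_v`, the kernels of the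
maps to the rational first homology. It is compatible with the edges since the intersections with the edge
groups consist of the elements of finite order, and the theorem on filtrations (`FiltrationsOnTrees`) can
be applied. In (1) the groups `D'_v` are contained in the torsion subgroups of the FC-centres of `N_v`,
which are finite.
-/

set_option autoImplicit false

namespace Pool.Agent.Results.MP_63c928_gt.CommensurableStabilizers

open Subgroup MulAction
open Pool.Agent.Y110.FJ (ClosedE)
open Pool.Agent.N24.CM (Comm)
open Pool.Agent.N77.CP (Vc)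
open Pool.Agent.N77.CP.STEP (II mem_II)

variable {G V : Type} [Group G] [MulAction G V]

/-- `S_v`: the elements of the stabilizer of `v` in `N` which centralize a subgroup of finite index
of `E` -/
def S (N E : Subgroup G) (v : V) : Subgroup G := (N ⊓ stabilizer G v) ⊓ Vc E

theorem mem_S {N E : Subgroup G} {v : V} {x : G} :
    x ∈ S N E v ↔ x ∈ N ∧ x • v = v ∧ (centralizer {x}).relIndex E ≠ 0 :=
  ⟨fun h => ⟨h.1.1, h.1.2, h.2⟩, fun h => ⟨⟨h.1, h.2.1⟩, h.2.2⟩⟩

/-- `D_v`: the elements of `S_v` with a power in the commutator subgroup of `S_v` -/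
def D (N E : Subgroup G) (v : V) : Subgroup G := II (S N E v)

theorem mem_D {N E : Subgroup G} {v : V} {x : G} :
    x ∈ D N E v ↔ x ∈ S N E v ∧ ∃ m : ℕ, 0 < m ∧ x ^ m ∈ ⁅S N E v, S N E v⁆ :=
  mem_II _ _

theorem result (C : ∀ (G : Type) [Group G], Prop) (hC : ClosedE C)
    (hM : ∀ (G : Type) [Group G], derivedSeries G 2 = ⊥ → C G)
    (G V : Type) [Group G] [MulAction G V] (T : SimpleGraph V) (hT : T.IsTree)
    (hact : ∀ (g : G) (u v : V), T.Adj u v → T.Adj (g • u) (g • v))
    (N : Subgroup G) [N.Normal] (hQ : C (G ⧸ N)) :
    -- (1) commensurable stabilizers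
    ((∀ x y : V, T.Adj x y →
        (N ⊓ stabilizer G x).relIndex (N ⊓ stabilizer G y) ≠ 0) → ∀ o : V,
      (((∀ m : ℕ, C (Matrix.GeneralLinearGroup (Fin m) ℚ)) ∧
          ∃ P : Subgroup G, P ≤ N ⊓ stabilizer G o ∧ P.relIndex (N ⊓ stabilizer G o) ≠ 0 ∧
            Group.IsSolvable P ∧ (∀ H : Subgroup P, H.FG) ∧
            ∀ (x : P) (n : ℕ), 0 < n → x ^ n = 1 → x = 1) ∨
        ({z : G | z ∈ N ⊓ stabilizer G o ∧ (∃ n : ℕ, 0 < n ∧ z ^ n = 1) ∧
            (centralizer {z}).relIndex (N ⊓ stabilizer G o) ≠ 0}.Finite ∧
          (C (Comm ↥(N ⊓ stabilizer G o)) ∨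
            ∃ (Q : Type) (_ : Group Q) (ρ : G →* Q), C Q ∧
              ∀ g : G, ρ g = 1 → (centralizer {g}).relIndex (N ⊓ stabilizer G o) ≠ 0))) →
      C G) ∧
    -- (2) a commensurated subgroup
    (∀ E : Subgroup G, (∀ g : G, (E.map (MulAut.conj g).toMonoidHom).relIndex E ≠ 0) →
      (C (Comm E) ∨ ((∀ m : ℕ, C (Matrix.GeneralLinearGroup (Fin m) ℚ)) ∧
        ∃ P : Subgroup G, P ≤ E ∧ P.relIndex E ≠ 0 ∧ Group.IsSolvable P ∧
          (∀ H : Subgroup P, H.FG) ∧ ∀ (x : P) (n : ℕ), 0 < n → x ^ n = 1 → x = 1)) →
      (∀ v w : V, T.Adj v w → ∃ U : Subgroup G, U ≤ D N E v ∧ U.relIndex (D N E v) ≠ 0 ∧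
        (∀ g : G, g • v = v → ∀ x ∈ U, g * x * g⁻¹ ∈ U) ∧ ∀ x ∈ U, x • w = w → x = 1) →
      (∀ (v : V) (g : G), g • v = v → C ↥(D N E v ⊔ zpowers g)) → C G) := by
  refine ⟨fun hfin o h => ?_, fun E hE h hU hV => ?_⟩
  · have hcsd := Pool.Agent.N77.CP.csd_stab T hT N hfin o
    rcases h with ⟨hL, P, hP, hPi, hPs, hPm, hPt⟩ | ⟨hf, h⟩
    · obtain ⟨Q, _, ρ, hCQ, hρ⟩ := Pool.Agent.D0H56.FJ.exists_rho hC hM _ hcsd
        (Or.inr ⟨hL, P, hP, hPi, hPs, hPm, hPt⟩)
      refine Pool.Agent.D0H56.FJ.vertex_thm hC hM hT hact N hQ hfin o ?_ ρ hCQ hρ
      refine Pool.Agent.D0H56.FJ.FT_fin_of_tf hPi fun x hx n hn h => ?_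
      have h1 := hPt ⟨x, hx⟩ n hn (Subtype.ext h)
      exact congrArg Subtype.val h1
    · have hft : Finite (Pool.Agent.D0H56.FJ.FT (N ⊓ stabilizer G o)) := hf
      rcases h with h | ⟨Q, _, ρ, hCQ, hρ⟩
      · obtain ⟨Q, _, ρ, hCQ, hρ⟩ := Pool.Agent.D0H56.FJ.exists_rho hC hM _ hcsd (Or.inl h)
        exact Pool.Agent.D0H56.FJ.vertex_thm hC hM hT hact N hQ hfin o hft ρ hCQ hρ
      · exact Pool.Agent.D0H56.FJ.vertex_thm hC hM hT hact N hQ hfin o hft ρ hCQ hρ
  · obtain ⟨Q, _, ρ, hCQ, hρ⟩ := Pool.Agent.D0H56.FJ.exists_rho hC hM E hE h
    exact Pool.Agent.D0H56.FJ.edge_thm hC hM hT hact N hQ E ρ hCQ hρ hU hV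

end Pool.Agent.Results.MP_63c928_gt.CommensurableStabilizers
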