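import Pool.Agent.D0H56.FJ.Chain

/-!
# Groups acting on trees with compatible filtrations of the stabilizers

`C` is any class of groups with the closure properties `ClosedE C` which contains the metabelian
groups. This is known for the class of the groups that satisfy the Farrell–Jones conjecture for
`A`-theory with coefficients and finite wreath products.

Let `G` act on a tree, possibly with inversions and with infinitely many orbits, and let `L` be a normal
subgroup of `G` such that `G ⧸ L` is in `C` (for instance `L = G`, or the kernel of a homomorphism to a
group in `C`). Let `L_v` be the stabilizer of the vertex `v` in `L`. Suppose that there is a filtration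
`L_v = R 0 v ≥ R 1 v ≥ ... ≥ R k v = 1` which is equivariant and compatible with the edges,
`R i v ∩ G_w = R i w ∩ G_v` for adjacent `v` and `w`, such that for every `i < k` one of the following
conditions holds for all `v`:

* (a) the quotient of `R i v` by `R (i + 1) v` is abelian;
* (b) the quotient of `R i v` by `R (i + 1) v` is finite;
* (c) for every edge `(v, w)` there is a subgroup `U` of finite index in `R i v`, normalized by `G_v`, with
  `R (i + 1) v ≤ U` and `U ∩ G_w ≤ R (i + 1) v`; and the quotients of the groups generated by `R i v` and
  one element of `G_v` by `R (i + 1) v` are in `C`.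

Then `G` is in `C`. The vertex groups are not assumed to be in `C`, to be countable or to be finitely
generated. Some cases (all of them immediate):

* `k = 1`, `L = G` and (a): the fundamental groups of graphs of abelian groups, the theorem of Gandini,
  Meinert and Rüping;
* `k = 1` and (b): `G` has a homomorphism to a group in `C` the kernel of which has finite stabilizers
  (of any orders), for instance all groups acting on trees with finite stabilizers;
* `k = 1` and (c): the vertex groups of `G` are residually finite and in `C`, and there is a homomorphism
  from `G` to a group in `C` the kernel of which has finite edge stabilizers;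
* `k = 2`, (a) and (b): in `L_v` the elements of finite order form a finite subgroup and the quotient is
  abelian;
* `k = 2`, (b) and (a): in `L_v` the elements of infinite order form, together with `1`, an abelian
  subgroup of finite index. This holds for all finite groups, for all torsion-free abelian groups, for
  the infinite dihedral group and, more generally, for the crystallographic groups the holonomy group of
  which acts freely on the nonzero vectors.

Outline of the proof (`Pool/Agent/D0H56/FJ/`). (1) If `Z v ≤ G_v` is an equivariant compatible family of
normal subgroups of finite index and all indices divide `N`, and if `G` preserves the colours of the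
vertices, then there is a homomorphism `G → Sym (N)` the kernel of which meets `G_v` in `Z v`: all the
groups `G_v ⧸ Z v` act freely on `N` points, free actions of an edge group are isomorphic, and the
isomorphisms give a local system on the tree; the homomorphism is its monodromy. (2) Let `ν` be a
homomorphism from `G` to `ℤ` with finite vertex kernels, and let there be finitely many orbits of edges.
High powers of the elements of `G_v` do not depend on the choice of an element with given value of `ν`, and
they give a family as in (1); so `G → Sym (N) × ℤ` is injective on the vertex groups. Together with the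
extension criterion this is the case `k = 1` of (b), and (c) is similar. (3) With infinite sets in place of
the `N` points one obtains that the group `N_i` generated by all `R i v` has the stabilizers `R i v`, for
any compatible family. (4) `G ⧸ N_i` acts on the tree of the orbits of `N_i`, and by induction on `i` it is
in `C`; in case (a) one uses the theorem on edge groups that embed in the first homology of the vertex
groups (`N509.TK`).
-/

set_option autoImplicit false

namespace Pool.Agent.Results.MP_63c928_gt.FiltrationsOnTrees

open Pool.Agent.Y110.FJ (ClosedE)

theorem result (C : ∀ (G : Type) [Group G], Prop) (hC : ClosedE C)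
    (hM : ∀ (G : Type) [Group G], derivedSeries G 2 = ⊥ → C G)
    (G V : Type) [Group G] [MulAction G V] (T : SimpleGraph V) (hT : T.IsTree)
    (hact : ∀ (g : G) (u v : V), T.Adj u v → T.Adj (g • u) (g • v))
    (L : Subgroup G) [L.Normal] (hQ : C (G ⧸ L))
    (k : ℕ) (R : ℕ → V → Subgroup G)
    (h0 : ∀ v, R 0 v = L ⊓ MulAction.stabilizer G v) (hk : ∀ v, R k v = ⊥)
    (hle : ∀ i < k, ∀ v, R (i + 1) v ≤ R i v)
    (hconj : ∀ i ≤ k, ∀ (g : G) (v : V), ∀ x ∈ R i v, g * x * g⁻¹ ∈ R i (g • v))
    (hcomp : ∀ i ≤ k, ∀ v w, T.Adj v w → ∀ x ∈ R i v, x • w = w → x ∈ R i w)
    (hstep : ∀ i < k,
      -- (a) abelian quotients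
      (∀ v, ⁅R i v, R i v⁆ ≤ R (i + 1) v) ∨
      -- (b) finite quotients
      (∀ v, (R (i + 1) v).relIndex (R i v) ≠ 0) ∨
      -- (c) quotients which are residually finite relative to the edge groups
      ((∀ v w, T.Adj v w → ∃ U : Subgroup G, R (i + 1) v ≤ U ∧ U ≤ R i v ∧
          U.relIndex (R i v) ≠ 0 ∧ (∀ g : G, g • v = v → ∀ x ∈ U, g * x * g⁻¹ ∈ U) ∧
          ∀ x ∈ U, x • w = w → x ∈ R (i + 1) v) ∧
        ∀ (v : V) (g : G), g • v = v → ∃ (P : Type) (_ : Group P)
          (f : ↥(R i v ⊔ Subgroup.zpowers g) →* P), C P ∧ ∀ x, f x = 1 ↔ (x : G) ∈ R (i + 1) v)) :
    C G := by
  have hfix : ∀ i ≤ k, ∀ v, ∀ x ∈ R i v, x • v = v := by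
    intro i
    induction i with
    | zero =>
      intro _ v x hx
      rw [h0] at hx
      exact hx.2
    | succ i ih =>
      intro hi v x hx
      exact ih (by omega) v x (hle i (by omega) v hx)
  exact Pool.Agent.D0H56.FJ.chain hC hM k hT hact L hQ R h0 hk
    (fun i hi => ⟨hfix i hi, hconj i hi, hcomp i hi⟩) hle hstep

end Pool.Agent.Results.MP_63c928_gt.FiltrationsOnTrees
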