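import Pool.Agent.D0H25.GK.Fin
import Pool.Agent.D0H25.GK.Filt

/-!
# Extensions whose kernel is a graph product

`C` is any class of groups with the closure properties `ClosedE C` which contains the groups `F ⋊ Z` for
all free groups `F` and all automorphisms of `F`. All this is published for the class of groups which
satisfy the Farrell–Jones conjecture for `A`-theory with coefficients and finite wreath products.

Let `N` be a normal subgroup of a group `G` such that `G ⧸ N` is in `C`, and suppose that `N` is the
internal graph product of subgroups `A v` over a simple graph `Λ` on a set `V` of any cardinality. The
following theorem shows that `G` is in `C` in each of three cases.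

1. `G` acts on `V` by automorphisms of `Λ` such that `g (A v) g⁻¹` is conjugate in `N` to `A (g v)` (the
   conjugating elements may depend on `v`, so that `G` need not permute any conjugates of the `A v`);
   for each `g` and `v` there is `m > 0` such that `v` is not adjacent to any `g ^ (m i) v`, `i ∈ ℤ` (for
   instance if the orbits of the elements of `G` on `V` are finite, or if adjacent vertices are in
   different orbits of `G`); and `A v ⟨g⟩` is in `C` for all `g` which normalize `A v`.
2. `V` and the groups `A v` are finite, for instance `N` is a finitely generated right-angled Coxeter
   group. There is no condition on `G` except that `G ⧸ N` is in `C`.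
3. There are a bounded colouring `c` of the vertices and a set `S` of vertices such that adjacent
   vertices have different colours, the normal closure of the `A v` of colour at least `i` is invariant
   for all `i`, `G` permutes the classes of the `A v`, `v ∈ S`, of colour `i` modulo the normal closure of
   the `A v` of larger colours, the `A v` with `v ∉ S` are free (for instance infinite cyclic) and the
   mapping tori of the automorphisms of `A v`, `v ∈ S`, which are induced by elements of `G` modulo larger
   colours are in `C`. This allows partial conjugations, factor automorphisms and transvections.

The case without edges is the theorem `FreeProductExtensions` for problem MP_490288_al.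

Outline of the proof.

* Let `U` be an independent set of vertices and let `K` be the normal closure of the `A u`, `u ∈ U`. By the
  universal property `N` is mapped to the semidirect product of the parabolic subgroup `P` of the
  complement of `U` with the free product of copies of the `A u`, indexed by the cosets of `P` by the
  parabolic subgroup of the neighbours of `u`. It follows that `K` is the free product of the conjugates
  of the `A u` by representatives of these cosets, and `N ⧸ K` is the graph product of the `A v`,
  `v ∉ U`. So one can apply the theorem on free products to `K` and induction to `G ⧸ K`. The condition on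
  the mapping tori is inherited, because an element of `N` which normalizes `A v` acts on it like its
  image under the retraction to `A v`. This proves (3), and (1) when there are finitely many colour
  classes (unions of orbits) without edges.
* In the general case of (1) let `g ∈ G` and let `F` be a finite set of vertices. Kill the `A v` with `v`
  outside the union of the orbits of `F` under `⟨g⟩` in `N ⟨g⟩`. The orbits of the elements of `F` under
  `g ^ m` are independent for some `m > 0`, so the result is in `C`. This is enough, by the criterion for
  kernels which are locally detected by homomorphisms to groups in `C`.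
* (2) By Bass–Serre theory every finite subgroup of `N` is conjugate to a subgroup of a finite parabolic
  subgroup. So a subgroup of finite index in `G` preserves the conjugacy classes of all `A v`.
-/

set_option autoImplicit false

namespace Pool.Agent.Results.MP_63c928_gt.GraphProductKernels

open Pool.Agent.Y110.FJ Pool.Agent.D0H25.GK

theorem result (C : ∀ (G : Type) [Group G], Prop) (hC : ClosedE C)
    (hF : ∀ (X : Type) (α : MulAut (FreeGroup X)),
      C (FreeGroup X ⋊[zpowersHom (MulAut (FreeGroup X)) α] Multiplicative ℤ))
    (G : Type) [Group G] (N : Subgroup G) [N.Normal] (hQ : C (G ⧸ N))
    (V : Type) (Λ : SimpleGraph V) (A : V → Subgroup G) (hN : IsGraphProd N Λ A) :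
    (∀ [MulAction G V],
      (∀ (g : G) (v w : V), Λ.Adj v w → Λ.Adj (g • v) (g • w)) →
      (∀ (g : G) (v : V), ∃ n ∈ N, ∀ x, x ∈ A v ↔ n * (g * x * g⁻¹) * n⁻¹ ∈ A (g • v)) →
      (∀ (g : G) (v : V), ∃ m : ℕ, 0 < m ∧ ∀ i : ℤ, ¬ Λ.Adj v (g ^ (m * i) • v)) →
      (∀ (v : V) (g : G), (∀ x, x ∈ A v ↔ g * x * g⁻¹ ∈ A v) →
        C ↥(A v ⊔ Subgroup.zpowers g)) → C G) ∧
    (Finite V → (∀ v, Finite (A v)) → C G) ∧
    (∀ (c : V → ℕ) (S : Set V) (k : ℕ), (∀ v, c v < k) → Filt C N Λ A c S → C G) := by
  refine ⟨?_, ?_, ?_⟩
  · intro _ h1 h2 h3 h4
    exact main hC hF hN h1 h2 h3 (fun v _ g hg => h4 v g hg) hQ
  · intro _ hA
    exact main_fin hC hF hN hA hQ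
  · intro c S k hc hS
    exact coreF hC hF k hN c S hc hS hQ

end Pool.Agent.Results.MP_63c928_gt.GraphProductKernels
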