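import Pool.Agent.D0H55.GW.Iff

/-!
# Graph-wreath products and extensions whose kernel is a graph product with permuted vertex groups

`C` is any class of groups with the closure properties `ClosedE C` which contains the groups `F ⋊ Z` for
all free groups `F` and all automorphisms of `F`. All this is published for the class of groups which
satisfy the Farrell–Jones conjecture for `A`-theory with coefficients and finite wreath products.

Let `N` be a normal subgroup of a group `G`, and suppose that `N` is the internal graph product of
subgroups `A v` over a simple graph `Λ` on a set `V` of any cardinality.

1. Suppose that for every `g` in `G` some element `n g` of the coset `N g` permutes the vertex groups by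
   an automorphism of `Λ`: `(n g) (A v) (n g)⁻¹ = A (σ v)`; that `A v ⟨g⟩` is in `C` for all `v` and all `g`
   in `G` which normalize `A v`; and that `G ⧸ N` is in `C`. Then `G` is in `C`. There is no condition on
   the graph and on the orbits of `G`: the vertices of an infinite orbit of `g` may be adjacent in any
   way which is invariant under `g` (in `GraphProductKernels` the vertices `v` and `g ^ (m i) v` must not be
   adjacent for some `m > 0`; here the vertex groups are permuted by one element of each coset of `N`).

2. Suppose that `N` has a complement `H` which permutes the vertex groups by automorphisms of `Λ` such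
   that the elements of `H` which fix `v` act on `A v` by inner automorphisms of `A v`. Then `G` is in `C`
   if and only if `H` and all the vertex groups are in `C`.

So the class of the groups that satisfy the conjecture is closed under graph-wreath products: let `H`
act on a graph `Λ` and let `B` be a group; the semidirect product of the graph product of the copies of
`B` over `Λ` with `H` (which permutes the copies) is in `C` if and only if `B` and `H` are in `C` (`V` not
empty). For complete graphs `Λ` these are the permutational restricted wreath products, for the graph
without edges on the set `H ⧸ K` they are the amalgamated products of `H` and `K × B` over `K`, and for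
`B = ℤ` the extensions of right-angled Artin groups of arbitrary rank by groups of symmetries of the
defining graph.

Outline of the proof (`Pool/Agent/D0H55/GW/`). By the realization criterion for the extension
(`MP_490288_al.RealizationCriterion`) it suffices, for `q` which permutes the vertex groups by `σ` and a
finite set `F` of vertices, to find a group `P` in `C` and an embedding of the parabolic subgroup of
`F' = F ∪ σ F` in `P` such that the conjugation by `q` on the parabolic subgroup of `F` is induced by an
element of `P`. Let `M` be a multiple of the lengths of the finite orbits of `σ` through `F'` which is
large compared with the distances between the points of `F'` in the same infinite orbit. On the set of the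
orbits of `σ ^ M` on `V` take the graph `Λ'` whose edges are the images of the edges of `Λ` between
elements of `F'` and their translates under `σ`. By the choice of `M` the graph `Λ` on `F'` is an induced
subgraph of `Λ'`, and `σ` induces an automorphism of `Λ'` of order dividing `M`. Choose a representative
of each orbit; conjugations by powers of `q` give an automorphism of the graph product of the groups of
the representatives over `Λ'`. Its mapping torus `P` is in `C` by the theorem for finite orbits
(`GraphProductKernels`), and the parabolic subgroup of `F'` is embedded in `P`, because there is a
homomorphism in the other direction which kills the vertex groups outside the image of `F'`. The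
conjugating powers of `q` are compatible: in an infinite orbit the exponents are unique, and a finite
orbit through `F'` is fixed pointwise by `σ ^ M`, so that its points are their own representatives.
-/

set_option autoImplicit false

namespace Pool.Agent.Results.MP_63c928_gt.GraphWreathProducts

open Pool.Agent.Y110.FJ Pool.Agent.D0H25.GK

theorem result (C : ∀ (G : Type) [Group G], Prop) (hC : ClosedE C)
    (hF : ∀ (X : Type) (α : MulAut (FreeGroup X)),
      C (FreeGroup X ⋊[zpowersHom (MulAut (FreeGroup X)) α] Multiplicative ℤ))
    (G : Type) [Group G] (N : Subgroup G) [N.Normal]
    (V : Type) (Λ : SimpleGraph V) (A : V → Subgroup G) (hN : IsGraphProd N Λ A) :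
    -- (1) every element of `G` is, modulo `N`, a permutation of the vertex groups
    ((∀ g : G, ∃ n ∈ N, ∃ σ : Equiv.Perm V, (∀ v w, Λ.Adj (σ v) (σ w) ↔ Λ.Adj v w) ∧
        ∀ v x, x ∈ A v ↔ (n * g) * x * (n * g)⁻¹ ∈ A (σ v)) →
      (∀ (v : V) (g : G), (∀ x, x ∈ A v ↔ g * x * g⁻¹ ∈ A v) →
        C ↥(A v ⊔ Subgroup.zpowers g)) →
      C (G ⧸ N) → C G) ∧
    -- (2) graph-wreath products
    (∀ (H : Subgroup G), N ⊔ H = ⊤ → N ⊓ H = ⊥ → ∀ [MulAction H V],
      (∀ (k : H) (v w : V), Λ.Adj v w → Λ.Adj (k • v) (k • w)) →
      (∀ (k : H) (v : V) (x : G), x ∈ A v ↔ (k : G) * x * (k : G)⁻¹ ∈ A (k • v)) →
      (∀ (k : H) (v : V), k • v = v → ∃ u ∈ A v, ∀ x ∈ A v,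
        (k : G) * x * (k : G)⁻¹ = u * x * u⁻¹) →
      (C G ↔ C H ∧ ∀ v, C (A v))) := by
  refine ⟨?_, ?_⟩
  · intro hperm hB hQ
    exact Pool.Agent.D0H55.GW.main_gw hC hF hN hperm (fun v _ g hg => hB v g hg) hQ
  · intro H hsup hinf _ hΛ hA hst
    exact Pool.Agent.D0H55.GW.gw_iff hC hF hN H hsup hinf hΛ hA hst

end Pool.Agent.Results.MP_63c928_gt.GraphWreathProducts
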